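import Pool.Agent.X238.DW.Stm3
import Pool.Agent.X60.DW.EXI3

/-! DW3_EXI3 in the form of `Stm3`. -/

set_option autoImplicit false

namespace Pool.Agent.X60.DW

universe v

theorem t_EXI3 : Pool.Agent.X238.DW.S_EXI3.{v} := t_EXI3'.{v}

end Pool.Agent.X60.DW
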