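import Pool.Agent.X238.DW.Stm3

/-! DW3_SA: the inverse of a self-adjoint coercive operator. -/

set_option autoImplicit false

namespace Pool.Agent.X60.DW

open Pool.Agent.X238.DW MeasureTheory Set Filter Topology

universe v

theorem t_SA : S_SA.{v} := by
  intro H _ _ _ A b hb hd hadj hco
  have hmem : ∀ (x w : H), (∀ v : A.domain, inner ℝ w (v : H) = inner ℝ x (A v)) →
      ∃ h : x ∈ A.domain, A ⟨x, h⟩ = w := by
    intro x w hw
    have h1 : x ∈ A.adjoint.domain := LinearPMap.mem_adjoint_domain_of_exists x ⟨w, hw⟩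
    have h2 : A.adjoint ⟨x, h1⟩ = w := LinearPMap.adjoint_apply_eq hd ⟨x, h1⟩ hw
    revert h1 h2
    rw [hadj]
    exact fun h1 h2 => ⟨h1, h2⟩
  have hsym : ∀ u v : A.domain, inner ℝ (A u) (v : H) = inner ℝ (u : H) (A v) := by
    have h := LinearPMap.adjoint_isFormalAdjoint hd
    rw [hadj] at h
    intro u v
    exact h u v
  have hbd : ∀ x : A.domain, ‖(x : H)‖ ≤ b⁻¹ * ‖A x‖ := by
    intro x
    have h1 := hco x
    have h2 : inner ℝ (A x) (x : H) ≤ ‖A x‖ * ‖(x : H)‖ := real_inner_le_norm _ _
    rcases (norm_nonneg (x : H)).eq_or_lt with h0 | h0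
    · rw [← h0]; positivity
    · have h3 : b * ‖(x : H)‖ ≤ ‖A x‖ := by
        have : b * ‖(x : H)‖ * ‖(x : H)‖ ≤ ‖A x‖ * ‖(x : H)‖ := by nlinarith
        exact le_of_mul_le_mul_right this h0
      rw [inv_mul_eq_div, le_div_iff₀ hb]
      linarith
  have hinj : ∀ x y : A.domain, A x = A y → (x : H) = y := by
    intro x y h
    have h1 := hbd (x - y)
    rw [LinearPMap.map_sub, h, sub_self, norm_zero, mul_zero] at h1
    have h2 : ‖((x - y : A.domain) : H)‖ = 0 := le_antisymm h1 (norm_nonneg _)
    have h3 : ((x - y : A.domain) : H) = 0 := norm_eq_zero.1 h2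
    have h4 : (x : H) - y = 0 := by simpa using h3
    exact sub_eq_zero.1 h4
  -- range
  let R : Submodule ℝ H := LinearMap.range A.toFun
  have hRmem : ∀ y : H, y ∈ R ↔ ∃ x : A.domain, A x = y := fun y => Iff.rfl
  have hRc : IsClosed (R : Set H) := by
    rw [← isSeqClosed_iff_isClosed]
    intro s y hs hy
    choose x hx using fun n => (hRmem (s n)).1 (hs n)
    have hcau : CauchySeq fun n => (x n : H) := by
      have hsc : CauchySeq s := hy.cauchySeq
      rw [Metric.cauchySeq_iff] at hsc ⊢
      intro ε hε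
      obtain ⟨N, hN⟩ := hsc (b * ε) (by positivity)
      refine ⟨N, fun m hm n hn => ?_⟩
      have h1 := hbd (x m - x n)
      rw [LinearPMap.map_sub, hx, hx] at h1
      have h2 := hN m hm n hn
      rw [dist_eq_norm] at h2 ⊢
      have h3 : ((x m - x n : A.domain) : H) = (x m : H) - x n := rfl
      rw [h3] at h1
      calc ‖(x m : H) - x n‖ ≤ b⁻¹ * ‖s m - s n‖ := h1
        _ < b⁻¹ * (b * ε) := by
            apply mul_lt_mul_of_pos_left h2 (by positivity)
        _ = ε := by field_simp
    obtain ⟨z, hz⟩ := cauchySeq_tendsto_of_complete hcau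
    obtain ⟨hzd, hz2⟩ := hmem z y (by
      intro v
      have l1 : Tendsto (fun n => inner ℝ (s n) (v : H)) atTop (𝓝 (inner ℝ y (v : H))) :=
        (hy.inner tendsto_const_nhds)
      have l2 : Tendsto (fun n => inner ℝ (x n : H) (A v)) atTop (𝓝 (inner ℝ z (A v))) :=
        (hz.inner tendsto_const_nhds)
      have l3 : (fun n => inner ℝ (s n) (v : H)) = fun n => inner ℝ (x n : H) (A v) := by
        funext n
        rw [← hx n]
        exact hsym (x n) v
      rw [l3] at l1
      exact tendsto_nhds_unique l1 l2)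
    exact ⟨⟨z, hzd⟩, hz2⟩
  have hRtop : R = ⊤ := by
    have : CompleteSpace R := hRc.completeSpace_coe
    have hperp : Rᗮ = ⊥ := by
      rw [Submodule.eq_bot_iff]
      intro z hz
      rw [Submodule.mem_orthogonal] at hz
      obtain ⟨hzd, hz2⟩ := hmem z 0 (by
        intro v
        rw [inner_zero_left, real_inner_comm]
        exact (hz (A v) ⟨v, rfl⟩).symm)
      have h1 := hbd ⟨z, hzd⟩
      rw [hz2, norm_zero, mul_zero] at h1
      exact norm_eq_zero.1 (le_antisymm h1 (norm_nonneg _))
    exact Submodule.orthogonal_eq_bot_iff.1 hperp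
  have hsurj : ∀ y : H, ∃ x : A.domain, A x = y := fun y => by
    have : y ∈ R := by rw [hRtop]; trivial
    exact this
  choose S hS using hsurj
  have hSadd : ∀ x y, ((S (x + y) : A.domain) : H) = (S x : H) + S y := by
    intro x y
    have := hinj (S (x + y)) (S x + S y) (by rw [LinearPMap.map_add, hS, hS, hS])
    simpa using this
  have hSsmul : ∀ (r : ℝ) (x : H), ((S (r • x) : A.domain) : H) = r • (S x : H) := by
    intro r x
    have := hinj (S (r • x)) (r • S x) (by rw [LinearPMap.map_smul, hS, hS])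
    simpa using this
  let T0 : H →ₗ[ℝ] H :=
    { toFun := fun x => (S x : H)
      map_add' := hSadd
      map_smul' := fun r x => by simpa using hSsmul r x }
  let T : H →L[ℝ] H := T0.mkContinuous b⁻¹ (fun x => by
    have h := hbd (S x)
    rw [hS] at h
    exact h)
  have hT : ∀ x, T x = (S x : H) := fun x => rfl
  refine ⟨T, ⟨fun x => ?_, fun x h => ?_, fun v => ?_, fun x y => ?_, fun x => ?_, ?_⟩⟩
  · rw [hT]; exact (S x).2
  · have : (⟨T x, h⟩ : A.domain) = S x := Subtype.ext (hT x)
    rw [this, hS]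
  · rw [hT]
    exact hinj _ _ (hS _)
  · rw [hT, hT]
    have := hsym (S x) (S y)
    rw [hS, hS] at this
    rw [← this]
  · rw [hT]
    have h := hco (S x)
    rw [hS] at h
    rw [real_inner_comm]
    exact h
  · intro z
    have hz := hd z
    refine closure_mono ?_ hz
    intro v hv
    exact ⟨A ⟨v, hv⟩, by rw [hT]; exact hinj _ ⟨v, hv⟩ (hS _)⟩

end Pool.Agent.X60.DW
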